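import Pool.Agent.N567.MD.MainF

/-!
# Bloch-Beilinson filtrations, finite-dimensional motives and Murre's conjectures

Let `𝒱` be a class of varieties which satisfy the standard conjecture of Lefschetz type, closed under
products and smooth linear sections (the hypothesis used here, `IsLefschetzClass`, is a consequence).

The existence of a Bloch-Beilinson filtration on the Chow groups of all the varieties in `𝒱` is
equivalent to a condition on a sufficiently large collection of varieties with finite-dimensional
motives: for arbitrarily large `j` every variety of dimension `2 j - 1` is covered by a variety `X'`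
of some dimension `2 j' - 1` with finite-dimensional motive, one of whose Chow-Kunneth decompositions
has the property that its parts of weight at least `2 j' - 1` act as zero on the kernel of the
Abel-Jacobi map in `CH^(j')(X')`.

Finite-dimensionality can be replaced by the uniqueness of Chow-Kunneth decompositions up to
conjugation, by the first half of Murre's conjecture (B) (`F^(i+1) CH^i(X) = 0`), or by Murre's
conjecture (C) (the filtration on `CH^i(X)` does not depend on the Chow-Kunneth decomposition).
-/

set_option autoImplicit false

universe u v w

namespace Pool.Agent.Results.MP_08891c_ag.FiniteDimensionalCoverings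

open Pool.Agent.H914 Pool.Agent.N164.Prim Pool.Agent.N567.Mid
open Pool.Agent.W492.BB (TheoryData WeilTheoryData)

/-- Let `𝒱` be a Lefschetz class of varieties (with Chow groups `C`, a Weil cohomology `H` and the
kernels `N X j` of the Abel-Jacobi maps) which contains a curve. The following are equivalent:

* a Bloch-Beilinson filtration exists on the Chow groups of all the varieties in `𝒱`;
* for arbitrarily large `j` every variety of dimension `2 j - 1` is covered by a finite-dimensional
  variety `X'` of some dimension `2 j' - 1`, for one of whose Chow-Kunneth decompositions `π` the
  projectors `π b`, `b ≥ dim X'`, act as zero on `N X' j'`;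
* all the varieties in `𝒱` have Chow-Kunneth decompositions, unique up to conjugation, and for
  arbitrarily large `j` every variety of dimension `2 j - 1` is covered by a variety `X'` as above
  (finite-dimensionality is not required);
* the same with Murre's conjecture (C) in place of the uniqueness;
* the same with the first half of Murre's conjecture (B), `F^(i+1) CH^i(X) = 0`, in place of the
  uniqueness. -/
theorem result {k : Type u} [Field k] {𝒱 : VarClass k} {C : TheoryData.{u, v, 0} 𝒱 ℚ}
    [IsChowTheory C] {K : Type w} [Field K] {H : WeilTheoryData.{u, v, w} C K} [IsWeilTheory H]
    (hg : IsGradedCommutative H) (hL : IsLefschetzClass H) {T : 𝒱.Obj} (hT : T.dim = 1)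
    {N : ∀ X : 𝒱.Obj, ℕ → Sub C X} (hN : IsAbelJacobiKernel H N) :
    List.TFAE [∃ F, IsBlochBeilinsonOn H N (fun _ => True) F,
      HasGoodCoverings H N (fun X => IsKimuraFinite C X),
      (∀ X : 𝒱.Obj, HasCK H X ∧ IsUniqueCK H X) ∧ HasGoodCoverings H N (fun _ => True),
      (∀ X : 𝒱.Obj, HasCK H X ∧ ∀ i : ℕ, MurreC H X i) ∧ HasGoodCoverings H N (fun _ => True),
      (∀ X : 𝒱.Obj, HasCK H X ∧ ∀ i : ℕ, MurreB1 H X i) ∧
        HasGoodCoverings H N (fun _ => True)] :=
  mainF inferInstance inferInstance hg hL hT hN

end Pool.Agent.Results.MP_08891c_ag.FiniteDimensionalCoverings
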