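import Pool.Agent.N567.MD.MainA

/-!
# Bloch-Beilinson filtrations and nilpotence in the middle dimension

Let `𝒱` be a class of varieties which satisfy the standard conjecture of Lefschetz type, closed under
products and smooth linear sections, for example the class of all smooth projective complex varieties
which satisfy this conjecture (the hypothesis used here, `IsLefschetzClass`, is a consequence).

The existence of a Bloch-Beilinson filtration on the Chow groups of all the varieties of the class
`𝒱` is equivalent to a statement which involves neither filtrations nor Chow-Kunneth decompositions: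
for varieties `X` of dimension `2 j - 1`, the self-correspondences of degree zero which act as zero
on `H^m(X)` for all `m < dim X` act nilpotently on the kernel of the Abel-Jacobi map in `CH^j(X)`. It
is sufficient to know this for arbitrarily large `j`, and for a class of varieties `X` which cover
all the others (varieties which are finite over a power of a given curve, say). It is also equivalent
to the existence of Chow-Kunneth decompositions together with the injectivity of the Abel-Jacobi
maps on the parts of weight at least `2 j - 1` of the Chow groups `CH^j(X)`, `dim X = 2 j - 1`, for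
arbitrarily large `j`.

The idea of the proof. Multiplying `X` with curves, the nilpotence follows for all dimensions and
codimensions. Applied to `X × X × T` for a curve `T` it provides idempotent lifts of the Kunneth
projectors which do not raise the weights, hence Chow-Kunneth decompositions, and shows that
homologically trivial correspondences strictly lower the weights. The hypothesis on the class `𝒱`
shows that `h^m(X)` is a direct summand of `h^m(Y)` for a variety `Y` of dimension `m < dim X`, so
that `CH^j` of `h^m(X)` vanishes for `j > m`.
-/

set_option autoImplicit false

universe u v w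

namespace Pool.Agent.Results.MP_08891c_ag.NilpotenceInMiddleDimension

open Pool.Agent.H914 Pool.Agent.N164.Prim Pool.Agent.N567.Mid
open Pool.Agent.W492.BB (TheoryData WeilTheoryData)

/-- Let `𝒱` be a Lefschetz class of varieties (with Chow groups `C`, a Weil cohomology `H` and the
kernels `N X j` of the Abel-Jacobi maps) which contains a curve.

* The following are equivalent: a Bloch-Beilinson filtration exists on the Chow groups of all the
  varieties of the class `𝒱`; for arbitrarily large `j` every variety of dimension `2 j - 1` is
  covered by a variety `X'` of dimension `2 j' - 1` such that the self-correspondences which act as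
  zero on `H^m(X')` for `m < dim X'` act nilpotently on `N X' j'`; all the varieties have
  Chow-Kunneth decompositions, and for arbitrarily large `j`, all `X` of dimension `2 j - 1` and all
  Chow-Kunneth decompositions `π` of `X` the projectors `π w`, `w ≥ dim X`, act as zero on `N X j`.
* If the condition on nilpotence holds for one `j`, there is a Bloch-Beilinson filtration on the
  varieties `X` with `2 dim X ≤ j`, and it is given by Chow-Kunneth decompositions.
* If there is a Bloch-Beilinson filtration on the varieties of dimension less than `2 j`, then the
  `(j - 1)`-st power of every self-correspondence of a variety `X` of dimension `2 j - 1` which acts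
  as zero on `H^m(X)` for `m < dim X` acts as zero on `N X j`. -/
theorem result {k : Type u} [Field k] {𝒱 : VarClass k} {C : TheoryData.{u, v, 0} 𝒱 ℚ}
    [IsChowTheory C] {K : Type w} [Field K] {H : WeilTheoryData.{u, v, w} C K} [IsWeilTheory H]
    (hL : IsLefschetzClass H) {T : 𝒱.Obj} (hT : T.dim = 1)
    {N : ∀ X : 𝒱.Obj, ℕ → Sub C X} (hN : IsAbelJacobiKernel H N) :
    List.TFAE [∃ F, IsBlochBeilinsonOn H N (fun _ => True) F,
      ∀ e : ℕ, ∃ j, e ≤ j ∧ NilpotentInCodim H N j,
      (∀ X : 𝒱.Obj, ∃ π, IsCK H X π) ∧ ∀ e : ℕ, ∃ j, e ≤ j ∧ InjectiveInCodim H N j] ∧
    (∀ j : ℕ, NilpotentInCodim H N j →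
      ∃ F, IsBlochBeilinsonOn H N (fun X => 2 * X.dim ≤ j) F ∧
        ∀ X : 𝒱.Obj, 2 * X.dim ≤ j → ∃ π, IsCK H X π ∧
          ∀ (i ν : ℕ) (z : C.A X), Mem (F X i ν) z ↔ InStep π i ν z) ∧
    (∀ j : ℕ, (∃ F, IsBlochBeilinsonOn H N (fun X => X.dim < 2 * j) F) →
      ∀ X : 𝒱.Obj, X.dim + 1 = 2 * j → ∀ Γ : Cor C X X, C.Deg X.dim Γ →
        (∀ m : ℤ, m < X.dim → Kills H Γ m) → ∀ z : C.A X, Mem (N X j) z →
          (C.act Γ)^[j - 1] z = zero C X) :=
  mainA inferInstance inferInstance hL hT hN

end Pool.Agent.Results.MP_08891c_ag.NilpotenceInMiddleDimension
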