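import Pool.Agent.N164.BB.BridgeA

/-!
# The Bloch-Beilinson filtration and the Abel-Jacobi maps of primitive parts
-/

set_option autoImplicit false

universe u v w

namespace Pool.Agent.Results.MP_08891c_ag.PrimitiveAbelJacobi

open Pool.Agent.H914 Pool.Agent.N164.Prim
open Pool.Agent.W492.BB (TheoryData WeilTheoryData)

/-- Let `N X j` be the kernels of the Abel-Jacobi maps and let `𝒮 d` be the class of the varieties
whose motive is a direct summand of a sum of twists `h(P)(-i)`, `i ≥ 0`, for products `P` of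
dimension at most `d` of curves in the class `𝒦`, surfaces and varieties with a primitive part (for
example complete intersections).

* A Bloch-Beilinson filtration exists on the class `𝒮 ⊤` of all the varieties dominated by such
  products if and only if every curve `T` in `𝒦` is dominated, for arbitrarily large `j`, by a curve
  `T'` in `𝒦` such that the Abel-Jacobi maps in codimension `j` are injective on the parts
  `h^1(T') ⊗ ⋯ ⊗ h^1(T') ⊗ t_2(S_1) ⊗ ⋯ ⊗ t_2(S_r) ⊗ (primitive parts)` of weight `2 j - 1` (these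
  are middle dimensional cases: the product `P` has dimension `2 j - 1`).
* If this holds for `j = d`, there is a Bloch-Beilinson filtration on `𝒮 d`, which is the filtration
  of a Chow-Kunneth decomposition of each of the varieties.
* If there is a Bloch-Beilinson filtration on `𝒮 (2 d - 1)`, the Abel-Jacobi maps in codimension `d`
  are injective on all the parts of weight `2 d - 1`. -/
theorem result {k : Type u} [Field k] {𝒱 : VarClass k} {C : TheoryData.{u, v, 0} 𝒱 ℚ}
    [IsChowTheory C] {K : Type w} [Field K] {H : WeilTheoryData.{u, v, w} C K} [IsWeilTheory H]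
    {𝒦 : 𝒱.Obj → Prop} {Q : ℕ → ∀ S : 𝒱.Obj, Cor C S S → Prop} (hA : IsAdmissible H 𝒦 Q)
    {N : ∀ X : 𝒱.Obj, ℕ → Sub C X} (hN : IsAbelJacobiKernel H N) :
    ((∃ F, IsBlochBeilinsonOn H N (IsDominated 𝒦 Q ⊤) F) ↔
      ∀ T, 𝒦 T → ∀ e : ℕ, ∃ T' j, 𝒦 T' ∧ Dominates C T' T ∧ e ≤ j ∧
        InjectiveAt (fun S => S = T') Q N j) ∧
    (∀ d : ℕ, (∀ T, 𝒦 T → ∃ T', 𝒦 T' ∧ Dominates C T' T ∧ InjectiveAt (fun S => S = T') Q N d) →
      ∃ F, IsBlochBeilinsonOn H N (IsDominated 𝒦 Q d) F ∧
        ∀ X, IsDominated 𝒦 Q d X → ∃ π, IsCK H X π ∧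
          ∀ (j ν : ℕ) (z : C.A X), Mem (F X j ν) z ↔ InStep π j ν z) ∧
    (∀ d : ℕ, (∃ F, IsBlochBeilinsonOn H N (IsDominated 𝒦 Q (2 * d - 1 : ℕ)) F) →
      InjectiveAt 𝒦 Q N d) :=
  Pool.Agent.N164.Bridge.mainA inferInstance inferInstance hA hN

end Pool.Agent.Results.MP_08891c_ag.PrimitiveAbelJacobi
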