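import Pool.Agent.N209.BM.Desc

/-!
# Bloch–Beilinson filtrations over the complex numbers and over the rational numbers

Let `k` be a perfect field and `K` an extension field of `k` (for the problem, `k` is the field of
rational numbers and `K` the field of complex numbers). It is shown that the following are
equivalent.

* There is a Bloch–Beilinson filtration (conditions 1-4) on the Chow groups of all smooth projective
  varieties over `K`, and homological and numerical equivalence coincide over `K`.
* There is a filtration with the properties 1-4, except `F^2 = ker AJ`, on the Chow groups of all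
  smooth projective varieties over `k`; homological and numerical equivalence coincide over `k`;
  and for the motives over `K` whose cohomology is concentrated in degree `-1` (the parts
  `h^(2j-1)(X)(j)` of motives of varieties) the Abel–Jacobi map is injective.

So, up to the condition on the Abel–Jacobi map and up to standard conjecture D, the existence of the
filtration for all complex varieties is a question on varieties over the field of rational numbers.

The theorem is stated for abstract tensor triangulated categories `C` (constructible motives over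
`k`) and `C'` (over `K`), with classes `W` and `W'` of objects (Chow motives) and `T j`, `T' j` (the
motives `h(X)(j)[2j]` of smooth projective varieties), with realisations `R` and `R'` and the base
change functor `b : C ⥤ C'`, and for each smooth connected `k`-variety `U i` with a morphism from
`Spec K` onto its generic point the category `D i` of lisse motives over `U i`, with the restriction
`ρ i : D i ⥤ C'` to `Spec K`, the inverse image `φ i : C ⥤ D i`, its right adjoint, the direct image
`π i`, the class `P i` of Chow motives over `U i`, and the morphisms `τ i : π i φ i M ⟶ M` given by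
the restriction to a closed point of `U i` and the trace. What is used of these data are theorems of
Deligne and Bondarko (`IsFamily`, `IsLisseFamily`), the theorem of Lefschetz on hyperplane sections
(`IsVarieties`), the theorems of Kleiman (characteristic zero) and Smirnov (positive
characteristic) that standard conjecture D implies the Künneth conjecture, the formal properties of
the Abel–Jacobi map, and continuity: morphisms of Chow motives over `K` come from some `U i`.

The idea of the proof, from `k` to `K`: from the filtration over `k` one deduces that homologically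
trivial correspondences are nilpotent and that homological and rational equivalence coincide on pure
motives over `k` in degrees `≥ 0`. By weight arguments the same is true for the mixed motives over
`k` of weights `≥ 0` in degrees `≥ 0`, and homologically trivial endomorphisms of mixed motives are
nilpotent. This is applied to the direct images `π X` of Chow motives `X` over `U`, and gives the same
properties for pure motives over `K`; here D over `K` (`MP_5f0950_ag.IndependenceOfBaseField`) and
the nilpotence give Chow–Künneth decompositions, which define the filtration.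
-/

set_option autoImplicit false

open CategoryTheory Limits MonoidalCategory Pretriangulated Triangulated

universe w v u v' u'

namespace Pool.Agent.Results.MP_08891c_ag.ReductionToPrimeField

open Pool.Agent.Y116.MT Pool.Agent.N209.CD Pool.Agent.N209.BD Pool.Agent.N209.BM

/-- A Bloch–Beilinson filtration exists over the extension field `K`, and D holds over `K`, if and
only if a filtration exists over `k`, D holds over `k`, and the Abel–Jacobi map over `K` is injective
in degree `-1`. -/
theorem result
    -- the category `C` of motives over `k`, Chow motives and motives of varieties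
    {C : Type u} [Category.{v} C] [Preadditive C] [HasZeroObject C] [HasShift C ℤ]
    [∀ n : ℤ, (shiftFunctor C n).Additive] [Pretriangulated C] [IsTriangulated C]
    [MonoidalCategory C] [SymmetricCategory C] [TensorTriangulated C] [MonoidalPreadditive C]
    [RightRigidCategory C] [Linear ℚ C] [IsIdempotentComplete C]
    {W : ObjectProperty C} (hW : IsChowClass W)
    (hQ : ∀ e : 𝟙_ C ⟶ 𝟙_ C, ∃ q : ℚ, e = q • 𝟙 _)
    -- the category `C'` of motives over `K`, Chow motives and motives of varieties
    {C' : Type u'} [Category.{v'} C'] [Preadditive C'] [HasZeroObject C'] [HasShift C' ℤ]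
    [∀ n : ℤ, (shiftFunctor C' n).Additive] [Pretriangulated C'] [IsTriangulated C']
    [MonoidalCategory C'] [SymmetricCategory C'] [TensorTriangulated C'] [MonoidalPreadditive C']
    [RightRigidCategory C'] [Linear ℚ C'] [IsIdempotentComplete C']
    {W' : ObjectProperty C'} (hW' : IsChowClass W')
    (hQ' : ∀ e : 𝟙_ C' ⟶ 𝟙_ C', ∃ q : ℚ, e = q • 𝟙 _)
    -- the realisations, and weights on the realisation of `C`
    {E : Type w} [Field E] (R : Realisation C E) (R' : Realisation C' E)
    (hw : Nonempty (Weights R W))
    {T : ℕ → ObjectProperty C} (hT : IsVarieties R W T)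
    {T' : ℕ → ObjectProperty C'} (hT' : IsVarieties R' W' T')
    -- standard conjecture D implies the Künneth conjecture
    (hC : HomNum R W → Kunneth R W) (hC' : HomNum R' W' → Kunneth R' W')
    -- the kernel of the Abel–Jacobi map over `K`
    (K : ∀ M : C', AddSubgroup (𝟙_ C' ⟶ M)) (hK : IsAbelJacobiKernel R' W' K)
    -- the base change functor
    (b : C ⥤ C') [b.Monoidal] [b.Additive] [b.Faithful] [b.CommShift ℤ]
    (hb : Nonempty (R.H ≅ b ⋙ R'.H)) (hbW : ∀ M, W M → W' (b.obj M))
    (hbT : ∀ j M, T j M → T' j (b.obj M))
    -- the motives over the varieties `U i`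
    {I : Type u} (D : I → Type u) [∀ i, Category.{v} (D i)] [∀ i, Preadditive (D i)]
    [∀ i, Linear ℚ (D i)] [∀ i, MonoidalCategory (D i)] [∀ i, MonoidalPreadditive (D i)]
    [∀ i, RightRigidCategory (D i)] (P : ∀ i, ObjectProperty (D i))
    (ρ : ∀ i, D i ⥤ C') [∀ i, (ρ i).Additive] [∀ i, (ρ i).Monoidal]
    (φ : ∀ i, C ⥤ D i) [∀ i, (φ i).Monoidal] (π : ∀ i, D i ⥤ C) [∀ i, (π i).Additive]
    (adj : ∀ i, φ i ⊣ π i) (τ : ∀ i, φ i ⋙ π i ⟶ 𝟭 C) (κ : ∀ i, φ i ⋙ ρ i ≅ b)
    (hF : ∀ i, IsFamily R R' W (P i) (ρ i) (φ i) (π i) (adj i) (τ i))
    (hL : ∀ i, IsLisseFamily R R' (P i) (ρ i) (φ i) (π i) (adj i))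
    -- morphisms to the unit, morphisms from the unit and endomorphisms of Chow motives over `K`
    -- come from some `U i`
    (hcov : ∀ Y : C', W' Y → ∀ u : Y ⟶ 𝟙_ C', ∃ (i : I) (X : D i) (u₀ : X ⟶ 𝟙_ (D i))
      (j : (ρ i).obj X ≅ Y), P i X ∧
        j.hom ≫ u = (ρ i).map u₀ ≫ Functor.OplaxMonoidal.η (ρ i))
    (hcov₂ : ∀ Y : C', W' Y → ∀ s : 𝟙_ C' ⟶ Y, ∃ (i : I) (X : D i) (s₀ : 𝟙_ (D i) ⟶ X)
      (j : (ρ i).obj X ≅ Y), P i X ∧
        s = Functor.LaxMonoidal.ε (ρ i) ≫ (ρ i).map s₀ ≫ j.hom)
    (hcov₃ : ∀ Y : C', W' Y → ∀ e : Y ⟶ Y, ∃ (i : I) (X : D i) (e₀ : X ⟶ X)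
      (j : (ρ i).obj X ≅ Y), P i X ∧ j.hom ≫ e = (ρ i).map e₀ ≫ j.hom)
    -- cycles over `K` on Chow motives over `k` come from some `U i`
    (hcov' : ∀ M : C, W M → ∀ s : 𝟙_ C' ⟶ b.obj M, ∃ (i : I) (s₀ : 𝟙_ (D i) ⟶ (φ i).obj M),
      s = Functor.LaxMonoidal.ε (ρ i) ≫ (ρ i).map s₀ ≫ (κ i).hom.app M) :
    ((∃ F : ∀ N : C', ℕ → AddSubgroup (𝟙_ C' ⟶ N), IsBB R' T' F ∧
      ∀ (j : ℕ) (N : C'), T' j N → F N 2 = K N) ∧ HomNum R' W') ↔
    ((∃ F : ∀ N : C, ℕ → AddSubgroup (𝟙_ C ⟶ N), IsBB R T F) ∧ HomNum R W ∧
      ∀ M : C', W' M → R'.Deg M (-1) → ∀ s ∈ K M, s = 0) := by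
  obtain ⟨w⟩ := hw
  obtain ⟨hb⟩ := hb
  constructor
  · rintro ⟨⟨F, hF', hFK⟩, hD'⟩
    refine ⟨⟨_, bb_descend b hb hbT hF'⟩, ?_, ?_⟩
    · exact homNum_of_homNumD hW.dual
        (descend (homNumD_of_homNum hW'.dual hD') b hb hbW hF κ hcov')
    · intro M hM hd s hs
      exact aj_of_bb hT' hF' hK hFK hM hd s hs
  · rintro ⟨⟨F, hF'⟩, hD, hAJ⟩
    have hD' : HomNum R' W' := homNum_of_homNumD hW'.dual
      (ascend hW.neg w hW.unit (homNumD_of_homNum hW.dual hD) hF hcov)
    have hr := regularOn_of_homNum hW hQ hD
    have hr' := regularOn_of_homNum hW' hQ' hD'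
    have hP := pos_of_bb hT hF'
    have hN := nil_of_bb hW hT hF'
    have hS := splits_of_kunneth hW (hC hD) hN
    have hP' : Pos R' W' := pos_ascend hW w hr hN hP hS (fun i => (hF i).weights) hL hcov₂
    have hN' : NilOn R' W' := nil_ascend hW w hr hN (fun i => (hF i).weights) hL hcov₃
    have hS' := splits_of_kunneth hW' (hC' hD') hN'
    exact ⟨⟨_, isBB_canFil hW' hT' hr' hN' hP' hS', fun j N hN =>
      canFil_two hP' hS' hK hAJ (hT'.mem hN)⟩, hD'⟩

end Pool.Agent.Results.MP_08891c_ag.ReductionToPrimeField
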